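import Pool.Agent.H791_Tri.Core

/-!
The main estimate: a triangle and its slightly shifted mirror image in the bisector of an angle.
-/

set_option autoImplicit false

open MeasureTheory Set Filter Topology
open scoped ENNReal

namespace Pool.Agent.H791Tri

theorem exists_swap (u v : Pl) (h : ‖u‖ = ‖v‖) : ∃ ρ : Pl ≃ₗᵢ[ℝ] Pl, ρ u = v ∧ ρ v = u := by
  refine ⟨(Submodule.span ℝ {u - v})ᗮ.reflection, ?_, ?_⟩
  · exact Submodule.reflection_sub h
  · have h1 : (Submodule.span ℝ {u - v})ᗮ.reflection u = v := Submodule.reflection_sub h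
    have h2 := Submodule.reflection_reflection (Submodule.span ℝ {u - v})ᗮ u
    rw [h1] at h2
    exact h2

namespace Frame

variable (F : Frame)

/-- The second congruent copy: mirror image in the bisector, shifted by `δ` outwards. -/
noncomputable def mir (ρ : Pl ≃ₗᵢ[ℝ] Pl) (δ : ℝ) : Pl ≃ᵢ Pl :=
  (IsometryEquiv.addRight (-F.B)).trans
    (ρ.toIsometryEquiv.trans (IsometryEquiv.addRight (F.B - δ • (F.u + F.v))))

theorem mir_apply (ρ : Pl ≃ₗᵢ[ℝ] Pl) (h1 : ρ F.u = F.v) (h2 : ρ F.v = F.u) (δ : ℝ) (x : Pl) :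
    F.mir ρ δ x = F.B + (F.T x - δ) • F.u + (F.S x - δ) • F.v := by
  have e : F.mir ρ δ x = ρ (x + -F.B) + (F.B - δ • (F.u + F.v)) := rfl
  have e2 : x + -F.B = F.S x • F.u + F.T x • F.v := by
    conv_lhs => rw [F.eq x]
    abel
  rw [e, e2, map_add, map_smul, map_smul, h1, h2]
  module

theorem mem_mir (ρ : Pl ≃ₗᵢ[ℝ] Pl) (h1 : ρ F.u = F.v) (h2 : ρ F.v = F.u) (δ : ℝ) {a c : ℝ}
    (ha : 0 < a) (hc : 0 < c) (y : Pl) :
    y ∈ F.mir ρ δ '' tri (F.B + c • F.u) F.B (F.B + a • F.v) ↔
      0 ≤ F.T y + δ ∧ 0 ≤ F.S y + δ ∧ a * (F.T y + δ) + c * (F.S y + δ) ≤ a * c := by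
  constructor
  · rintro ⟨x, hx, rfl⟩
    rw [F.mem_tri ha hc] at hx
    rw [F.mir_apply ρ h1 h2, F.coS, F.coT]
    simpa using hx
  · intro h
    refine ⟨F.B + (F.T y + δ) • F.u + (F.S y + δ) • F.v, ?_, ?_⟩
    · rw [F.mem_tri ha hc, F.coS, F.coT]
      exact h
    · rw [F.mir_apply ρ h1 h2, F.coS, F.coT]
      conv_rhs => rw [F.eq y]
      congr 2 <;> congr 1 <;> ring

theorem isClosed_tri (A B C : Pl) : IsClosed (tri A B C) := by
  have hf : ({A, B, C} : Set Pl).Finite := by simp
  exact (Set.Finite.isCompact_convexHull (𝕜 := ℝ) hf).isClosed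

/-- the interior contains the points satisfying the strict inequalities -/
theorem sub_interior {a c : ℝ} (ha : 0 < a) (hc : 0 < c) :
    {x : Pl | 0 < F.S x ∧ 0 < F.T x ∧ a * F.S x + c * F.T x < a * c} ⊆
      interior (tri (F.B + c • F.u) F.B (F.B + a • F.v)) := by
  apply interior_maximal
  · rintro x ⟨h1, h2, h3⟩
    rw [F.mem_tri ha hc]
    exact ⟨h1.le, h2.le, h3.le⟩
  · have hS := F.contS
    have hT := F.contT
    have e : {x : Pl | 0 < F.S x ∧ 0 < F.T x ∧ a * F.S x + c * F.T x < a * c} =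
        {x : Pl | 0 < F.S x} ∩ ({x : Pl | 0 < F.T x} ∩
          {x : Pl | a * F.S x + c * F.T x < a * c}) := rfl
    rw [e]
    exact (isOpen_lt continuous_const hS).inter ((isOpen_lt continuous_const hT).inter
      (isOpen_lt ((continuous_const.mul hS).add (continuous_const.mul hT)) continuous_const))

theorem sub_interior_mir (ρ : Pl ≃ₗᵢ[ℝ] Pl) (h1 : ρ F.u = F.v) (h2 : ρ F.v = F.u) (δ : ℝ) {a c : ℝ}
    (ha : 0 < a) (hc : 0 < c) :
    {x : Pl | 0 < F.T x + δ ∧ 0 < F.S x + δ ∧ a * (F.T x + δ) + c * (F.S x + δ) < a * c} ⊆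
      interior (F.mir ρ δ '' tri (F.B + c • F.u) F.B (F.B + a • F.v)) := by
  apply interior_maximal
  · rintro x ⟨h3, h4, h5⟩
    rw [F.mem_mir ρ h1 h2 δ ha hc]
    exact ⟨h3.le, h4.le, h5.le⟩
  · have hS := F.contS
    have hT := F.contT
    have e : {x : Pl | 0 < F.T x + δ ∧ 0 < F.S x + δ ∧
          a * (F.T x + δ) + c * (F.S x + δ) < a * c} =
        {x : Pl | 0 < F.T x + δ} ∩ ({x : Pl | 0 < F.S x + δ} ∩
          {x : Pl | a * (F.T x + δ) + c * (F.S x + δ) < a * c}) := rfl
    rw [e]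
    exact (isOpen_lt continuous_const (hT.add continuous_const)).inter
      ((isOpen_lt continuous_const (hS.add continuous_const)).inter (isOpen_lt
        ((continuous_const.mul (hT.add continuous_const)).add
          (continuous_const.mul (hS.add continuous_const))) continuous_const))

theorem frontier_of_S {a c : ℝ} (ha : 0 < a) (hc : 0 < c) (x : Pl)
    (hx : x ∈ tri (F.B + c • F.u) F.B (F.B + a • F.v)) (h0 : F.S x = 0) :
    x ∈ frontier (tri (F.B + c • F.u) F.B (F.B + a • F.v)) := by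
  rw [(isClosed_tri _ _ _).frontier_eq]
  refine ⟨hx, ?_⟩
  refine not_mem_interior _ (fun y => - F.S y) 0 (-F.u) 1 one_pos ?_ ?_ x (by simp [h0])
  · intro y t
    have : y + t • (-F.u) = y + ((-t) • F.u + (0 : ℝ) • F.v) := by simp
    rw [this, F.S_add]; ring
  · intro y hy
    rw [F.mem_tri ha hc] at hy
    linarith [hy.1]

theorem frontier_of_T {a c : ℝ} (ha : 0 < a) (hc : 0 < c) (x : Pl)
    (hx : x ∈ tri (F.B + c • F.u) F.B (F.B + a • F.v)) (h0 : F.T x = 0) :
    x ∈ frontier (tri (F.B + c • F.u) F.B (F.B + a • F.v)) := by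
  rw [(isClosed_tri _ _ _).frontier_eq]
  refine ⟨hx, ?_⟩
  refine not_mem_interior _ (fun y => - F.T y) 0 (-F.v) 1 one_pos ?_ ?_ x (by simp [h0])
  · intro y t
    have : y + t • (-F.v) = y + ((0 : ℝ) • F.u + (-t) • F.v) := by simp
    rw [this, F.T_add]; ring
  · intro y hy
    rw [F.mem_tri ha hc] at hy
    linarith [hy.2.1]

theorem frontier_of_ST {a c : ℝ} (ha : 0 < a) (hc : 0 < c) (x : Pl)
    (hx : x ∈ tri (F.B + c • F.u) F.B (F.B + a • F.v)) (h0 : a * F.S x + c * F.T x = a * c) :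
    x ∈ frontier (tri (F.B + c • F.u) F.B (F.B + a • F.v)) := by
  rw [(isClosed_tri _ _ _).frontier_eq]
  refine ⟨hx, ?_⟩
  refine not_mem_interior _ (fun y => a * F.S y + c * F.T y) (a * c) F.u a ha ?_ ?_ x h0
  · intro y t
    have : y + t • F.u = y + (t • F.u + (0 : ℝ) • F.v) := by simp
    rw [this, F.S_add, F.T_add]; ring
  · intro y hy
    rw [F.mem_tri ha hc] at hy
    exact hy.2.2

end Frame

theorem image_refl (K : Set Pl) : (IsometryEquiv.refl Pl) '' K = K := by
  ext x
  constructor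
  · rintro ⟨y, hy, rfl⟩
    exact hy
  · intro hx
    exact ⟨x, hx, rfl⟩

theorem mem_seg (p w x : Pl) (r : ℝ) (hx : x ∈ segment ℝ p (p + r • w)) (hr : 0 ≤ r) :
    ∃ s, 0 ≤ s ∧ s ≤ r ∧ x = p + s • w := by
  rw [segment_eq_image'] at hx
  obtain ⟨θ, ⟨h1, h2⟩, rfl⟩ := hx
  refine ⟨θ * r, by positivity, by nlinarith, ?_⟩
  simp only [add_sub_cancel_left, smul_smul]

theorem seg_mem (p w : Pl) (r s : ℝ) (hs : 0 ≤ s) (hr : 0 < r) (hsr : s ≤ r) :
    p + s • w ∈ segment ℝ p (p + r • w) := by
  rw [segment_eq_image']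
  refine ⟨s / r, ⟨by positivity, (div_le_one hr).mpr hsr⟩, ?_⟩
  simp only [add_sub_cancel_left, smul_smul]
  rw [div_mul_cancel₀ _ hr.ne']

theorem len_seg (p w : Pl) (r : ℝ) (hr : 0 ≤ r) :
    len (segment ℝ p (p + r • w)) = ENNReal.ofReal (r * ‖w‖) := by
  unfold len
  rw [hausdorffMeasure_segment, edist_dist, dist_eq_norm]
  congr 1
  rw [sub_add_cancel_left, norm_neg, norm_smul, Real.norm_of_nonneg hr]

theorem measurableSet_seg (p q : Pl) : MeasurableSet (segment ℝ p q) := by
  rw [segment_eq_image]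
  have : IsCompact ((fun θ : ℝ => (1 - θ) • p + θ • q) '' Icc (0 : ℝ) 1) := by
    apply isCompact_Icc.image
    fun_prop
  exact this.isClosed.measurableSet

theorem len_union (s t : Set Pl) (ht : MeasurableSet t) (p : Pl) (h : s ∩ t ⊆ {p}) :
    len (s ∪ t) = len s + len t := by
  unfold len
  have hd : AEDisjoint (Measure.hausdorffMeasure 1 : Measure Pl) s t := by
    have : (Measure.hausdorffMeasure 1 : Measure Pl) {p} = 0 := by
      have := Measure.nullSingletonClass_hausdorff Pl (d := 1) one_pos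
      exact measure_singleton p
    exact measure_mono_null h this
  exact measure_union₀ ht.nullMeasurableSet hd

namespace Frame

variable (F : Frame)

theorem core_bound (hu : ‖F.u‖ = 1) (hv : ‖F.v‖ = 1) {a c δ : ℝ} (ha : 0 < a) (hac : a < c)
    (hδ : 0 < δ) (h1 : (a + c) * δ < a * (c - a)) (h2 : 2 * (a + c) * δ < a * c) :
    ENNReal.ofReal ((a + (a - (a + c) * δ / c) + (a / (a + c) - δ / (c - a)) *
        ‖c • F.u - a • F.v‖) / ((a / (a + c) + δ / (c - a)) * ‖c • F.u - a • F.v‖)) ≤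
      M (tri (F.B + c • F.u) F.B (F.B + a • F.v)) := by
  have hc : 0 < c := ha.trans hac
  have hca : 0 < c - a := sub_pos.mpr hac
  obtain ⟨ρ, hρ1, hρ2⟩ := exists_swap F.u F.v (by rw [hu, hv])
  set b := ‖c • F.u - a • F.v‖ with hb
  set K := tri (F.B + c • F.u) F.B (F.B + a • F.v) with hK
  set K' := F.mir ρ δ '' K with hK'
  set w := c • F.u - a • F.v with hw
  have memK : ∀ x, x ∈ K ↔ 0 ≤ F.S x ∧ 0 ≤ F.T x ∧ a * F.S x + c * F.T x ≤ a * c :=
    fun x => F.mem_tri ha hc x
  have memK' : ∀ y, y ∈ K' ↔ 0 ≤ F.T y + δ ∧ 0 ≤ F.S y + δ ∧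
      a * (F.T y + δ) + c * (F.S y + δ) ≤ a * c := fun y => F.mem_mir ρ hρ1 hρ2 δ ha hc y
  -- b > 0
  have hbpos : 0 < b := by
    rw [hb, norm_pos_iff]
    intro h0
    have e1 := F.coS c (-a)
    have e2 := F.S_B
    have : F.B + c • F.u + (-a) • F.v = F.B := by
      have : F.B + c • F.u + (-a) • F.v = F.B + (c • F.u - a • F.v) := by module
      rw [this, ← hw, h0, add_zero]
    rw [this, e2] at e1
    linarith
  -- the three segments
  set s1 := a - (a + c) * δ / c with hs1
  set l1 := a / (a + c) - δ / (c - a) with hl1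
  set l2 := a / (a + c) + δ / (c - a) with hl2
  have hs1pos : 0 < s1 := by
    rw [hs1, sub_pos, div_lt_iff₀ hc]
    nlinarith
  have hl1pos : 0 < l1 := by
    rw [hl1, sub_pos, div_lt_div_iff₀ hca (by positivity)]
    nlinarith
  have hl1lt : l1 < 1 := by
    have e1 : a / (a + c) < 1 := by rw [div_lt_one (by positivity)]; linarith
    have e2 : 0 < δ / (c - a) := by positivity
    linarith
  have hl2pos : 0 < l2 := by positivity
  have hSw : ∀ r : ℝ, F.S (F.B + a • F.v + r • w) = r * c := by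
    intro r
    have : F.B + a • F.v + r • w = F.B + (r * c) • F.u + (a * (1 - r)) • F.v := by
      rw [hw]; module
    rw [this, F.coS]
  have hTw : ∀ r : ℝ, F.T (F.B + a • F.v + r • w) = a * (1 - r) := by
    intro r
    have : F.B + a • F.v + r • w = F.B + (r * c) • F.u + (a * (1 - r)) • F.v := by
      rw [hw]; module
    rw [this, F.coT]
  have sub1 : segment ℝ F.B (F.B + a • F.v) ⊆ frontier K ∩ K' := by
    intro x hx
    obtain ⟨t, ht0, hta, rfl⟩ := mem_seg F.B F.v x a hx ha.le
    have hxK : F.B + t • F.v ∈ K := by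
      rw [memK, F.S_v, F.T_v]
      refine ⟨le_rfl, ht0, ?_⟩
      rw [mul_zero, zero_add, mul_comm a c]
      exact mul_le_mul_of_nonneg_left hta hc.le
    refine ⟨F.frontier_of_S ha hc _ hxK (F.S_v t), ?_⟩
    rw [memK', F.S_v, F.T_v]
    refine ⟨by positivity, by positivity, ?_⟩
    nlinarith
  have sub2 : segment ℝ F.B (F.B + s1 • F.u) ⊆ frontier K ∩ K' := by
    intro x hx
    obtain ⟨s, hs0, hsa, rfl⟩ := mem_seg F.B F.u x s1 hx hs1pos.le
    have hsa' : s ≤ a := by
      have : 0 < (a + c) * δ / c := by positivity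
      linarith
    have hxK : F.B + s • F.u ∈ K := by
      rw [memK, F.S_u, F.T_u]
      refine ⟨hs0, le_rfl, ?_⟩
      rw [mul_zero, add_zero]
      exact mul_le_mul_of_nonneg_left (hsa'.trans hac.le) ha.le
    refine ⟨F.frontier_of_T ha hc _ hxK (F.T_u s), ?_⟩
    rw [memK', F.S_u, F.T_u]
    refine ⟨by positivity, by positivity, ?_⟩
    have e1 : c * s ≤ c * s1 := mul_le_mul_of_nonneg_left hsa hc.le
    have e2 : c * s1 = a * c - (a + c) * δ := by
      rw [hs1]; field_simp
    nlinarith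
  have sub3 : segment ℝ (F.B + a • F.v) (F.B + a • F.v + l1 • w) ⊆ frontier K ∩ K' := by
    intro x hx
    obtain ⟨r, hr0, hra, rfl⟩ := mem_seg (F.B + a • F.v) w x l1 hx hl1pos.le
    have hr1 : r < 1 := lt_of_le_of_lt hra hl1lt
    have heq : a * F.S (F.B + a • F.v + r • w) + c * F.T (F.B + a • F.v + r • w) = a * c := by
      rw [hSw, hTw]; ring
    have hxK : F.B + a • F.v + r • w ∈ K := by
      rw [memK]
      refine ⟨?_, ?_, heq.le⟩
      · rw [hSw]; positivity
      · rw [hTw]; exact mul_nonneg ha.le (by linarith)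
    refine ⟨F.frontier_of_ST ha hc _ hxK heq, ?_⟩
    rw [memK', hSw, hTw]
    refine ⟨?_, by positivity, ?_⟩
    · have := mul_nonneg ha.le (by linarith : 0 ≤ 1 - r)
      linarith
    · have e1 : r * ((c - a) * (a + c)) ≤ l1 * ((c - a) * (a + c)) :=
        mul_le_mul_of_nonneg_right hra (by positivity)
      have e2 : l1 * ((c - a) * (a + c)) = a * (c - a) - δ * (a + c) := by
        rw [hl1]; field_simp
      nlinarith
  have hnum : ENNReal.ofReal (a + s1 + l1 * b) ≤ len (frontier K ∩ K') := by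
    have hu1 : len (segment ℝ F.B (F.B + a • F.v) ∪ segment ℝ F.B (F.B + s1 • F.u)) =
        ENNReal.ofReal (a + s1) := by
      rw [len_union _ _ (measurableSet_seg _ _) F.B, len_seg _ _ _ ha.le, len_seg _ _ _ hs1pos.le,
        hu, hv, mul_one, mul_one, ENNReal.ofReal_add ha.le hs1pos.le]
      rintro x ⟨hx1, hx2⟩
      obtain ⟨t, -, -, ht⟩ := mem_seg F.B F.v x a hx1 ha.le
      obtain ⟨s, -, -, hs⟩ := mem_seg F.B F.u x s1 hx2 hs1pos.le
      have e1 : F.S x = 0 := by rw [ht, F.S_v]
      have e2 : F.S x = s := by rw [hs, F.S_u]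
      have : s = 0 := by rw [← e2, e1]
      rw [hs, this, zero_smul, add_zero]
      rfl
    have hu2 : len ((segment ℝ F.B (F.B + a • F.v) ∪ segment ℝ F.B (F.B + s1 • F.u)) ∪
        segment ℝ (F.B + a • F.v) (F.B + a • F.v + l1 • w)) =
        ENNReal.ofReal (a + s1 + l1 * b) := by
      rw [len_union _ _ (measurableSet_seg _ _) (F.B + a • F.v), hu1, len_seg _ _ _ hl1pos.le,
        ← ENNReal.ofReal_add (by positivity) (by positivity)]
      rintro x ⟨hx1, hx2⟩
      obtain ⟨r, hr0, hra, hr⟩ := mem_seg (F.B + a • F.v) w x l1 hx2 hl1pos.le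
      rcases hx1 with hx1 | hx1
      · obtain ⟨t, -, -, ht⟩ := mem_seg F.B F.v x a hx1 ha.le
        have e1 : F.S x = 0 := by rw [ht, F.S_v]
        rw [hr, hSw] at e1
        have : r = 0 := by
          rcases mul_eq_zero.mp e1 with h | h
          · exact h
          · exact absurd h hc.ne'
        rw [hr, this, zero_smul, add_zero]
        rfl
      · obtain ⟨s, -, -, hs⟩ := mem_seg F.B F.u x s1 hx1 hs1pos.le
        have e1 : F.T x = 0 := by rw [hs, F.T_u]
        rw [hr, hTw] at e1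
        have hr1 : r < 1 := lt_of_le_of_lt hra hl1lt
        have : 0 < a * (1 - r) := mul_pos ha (by linarith)
        exact absurd e1 this.ne'
    rw [← hu2]
    exact measure_mono (union_subset (union_subset sub1 sub2) sub3)
  have hden : len (frontier K' ∩ K) ≤ ENNReal.ofReal (l2 * b) := by
    set w' := c • F.v - a • F.u with hw'
    have hw'n : ‖w'‖ = b := by
      have : w' = ρ w := by
        rw [hw', hw, map_sub, map_smul, map_smul, hρ1, hρ2]
      rw [this, LinearIsometryEquiv.norm_map]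
    have hsub : frontier K' ∩ K ⊆ segment ℝ (F.B + (a - δ) • F.u + (-δ) • F.v)
        (F.B + (a - δ) • F.u + (-δ) • F.v + l2 • w') := by
      rintro y ⟨hy1, hy2⟩
      have hclosed : IsClosed K' := by
        rw [hK']
        exact (F.mir ρ δ).toHomeomorph.isClosedMap _ (isClosed_tri _ _ _)
      rw [hclosed.frontier_eq] at hy1
      obtain ⟨hyK', hyi⟩ := hy1
      rw [memK'] at hyK'
      rw [memK] at hy2
      have heq : a * (F.T y + δ) + c * (F.S y + δ) = a * c := by
        by_contra hne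
        apply hyi
        apply F.sub_interior_mir ρ hρ1 hρ2 δ ha hc
        refine ⟨by linarith [hy2.2.1], by linarith [hy2.1], lt_of_le_of_ne hyK'.2.2 hne⟩
      have hT0 : 0 ≤ F.T y + δ := hyK'.1
      set r := (F.T y + δ) / c with hr
      have hTr : F.T y = c * r - δ := by rw [hr]; field_simp; ring
      have hSr : F.S y = a * (1 - r) - δ := by
        have : c * (F.S y + δ) = c * (a * (1 - r)) := by
          have e : c * r = F.T y + δ := by rw [hr]; field_simp
          nlinarith
        have := mul_left_cancel₀ hc.ne' this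
        linarith
      have hyr : y = F.B + (a - δ) • F.u + (-δ) • F.v + r • w' := by
        have : F.B + (a - δ) • F.u + (-δ) • F.v + r • w' =
            F.B + (a * (1 - r) - δ) • F.u + (c * r - δ) • F.v := by
          rw [hw']; module
        rw [this, ← hSr, ← hTr]
        exact F.eq y
      have hr0 : 0 ≤ r := by positivity
      have hrl : r ≤ l2 := by
        have e1 := hy2.2.2
        rw [hSr, hTr] at e1
        have e2 : r * ((c - a) * (a + c)) ≤ l2 * ((c - a) * (a + c)) := by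
          have e3 : l2 * ((c - a) * (a + c)) = a * (c - a) + δ * (a + c) := by
            rw [hl2]; field_simp
          rw [e3]
          nlinarith
        exact le_of_mul_le_mul_right e2 (by positivity)
      rw [hyr]
      exact seg_mem _ _ _ _ hr0 hl2pos hrl
    calc len (frontier K' ∩ K) ≤ len (segment ℝ (F.B + (a - δ) • F.u + (-δ) • F.v)
          (F.B + (a - δ) • F.u + (-δ) • F.v + l2 • w')) := measure_mono hsub
      _ = ENNReal.ofReal (l2 * b) := by rw [len_seg _ _ _ hl2pos.le, hw'n]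
  have hov : Overlap ((IsometryEquiv.refl Pl) '' K) (F.mir ρ δ '' K) := by
    rw [image_refl]
    constructor
    · refine ⟨F.B + δ • F.u + δ • F.v, ?_, ?_⟩
      · apply F.sub_interior ha hc
        refine ⟨?_, ?_, ?_⟩
        · rw [F.coS]; exact hδ
        · rw [F.coT]; exact hδ
        · rw [F.coS, F.coT]; nlinarith
      · apply F.sub_interior_mir ρ hρ1 hρ2 δ ha hc
        refine ⟨?_, ?_, ?_⟩
        · rw [F.coT]; positivity
        · rw [F.coS]; positivity
        · rw [F.coS, F.coT]; nlinarith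
    · intro hKK
      have hm : F.B + (-δ) • F.u + (-δ) • F.v ∈ F.mir ρ δ '' K := by
        change _ ∈ K'
        rw [memK', F.coS, F.coT]
        refine ⟨by simp, by simp, ?_⟩
        simp only [neg_add_cancel, mul_zero, add_zero]
        positivity
      rw [← hKK, memK, F.coS] at hm
      linarith [hm.1]
  have hfin := ratio_le_M K (IsometryEquiv.refl Pl) (F.mir ρ δ) hov
  rw [image_refl] at hfin
  refine le_trans ?_ hfin
  unfold ratio
  rw [ENNReal.ofReal_div_of_pos (by positivity)]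
  exact ENNReal.div_le_div hnum hden

end Frame

end Pool.Agent.H791Tri
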