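import Mathlib

/-!
Overlapping congruent triangles in the plane: the ratio of the lengths of the boundary parts.
-/

set_option autoImplicit false

open MeasureTheory Set Filter Topology
open scoped ENNReal

namespace Pool.Agent.H791Tri

/-- The Euclidean plane. -/
abbrev Pl := EuclideanSpace ℝ (Fin 2)

/-- The (filled) triangle with vertices `A`, `B`, `C`. -/
def tri (A B C : Pl) : Set Pl := convexHull ℝ {A, B, C}

/-- Length: the one-dimensional Hausdorff measure. -/
noncomputable def len (S : Set Pl) : ℝ≥0∞ := Measure.hausdorffMeasure 1 S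

/-- `R(K, K') = length (∂K ∩ K') / length (∂K' ∩ K)`. -/
noncomputable def ratio (K K' : Set Pl) : ℝ≥0∞ := len (frontier K ∩ K') / len (frontier K' ∩ K)

/-- `K` and `K'` overlap: their interiors meet and they are different. -/
def Overlap (K K' : Set Pl) : Prop := (interior K ∩ interior K').Nonempty ∧ K ≠ K'

/-- `M(T)`: the supremum of `R(K, K')` over all overlapping pairs of sets congruent to `T`. -/
noncomputable def M (T : Set Pl) : ℝ≥0∞ :=
  ⨆ (g : Pl ≃ᵢ Pl) (g' : Pl ≃ᵢ Pl) (_ : Overlap (g '' T) (g' '' T)), ratio (g '' T) (g' '' T)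

theorem ratio_le_M (T : Set Pl) (g g' : Pl ≃ᵢ Pl) (h : Overlap (g '' T) (g' '' T)) :
    ratio (g '' T) (g' '' T) ≤ M T :=
  le_iSup_of_le g (le_iSup_of_le g' (le_iSup_of_le h le_rfl))

/-- A point of a set where a function growing along a direction attains its maximum over the set is
not interior. -/
theorem not_mem_interior (K : Set Pl) (f : Pl → ℝ) (m : ℝ) (w : Pl) (k : ℝ) (hk : 0 < k)
    (hf : ∀ x t, f (x + t • w) = f x + t * k) (hK : ∀ x ∈ K, f x ≤ m) (x : Pl) (hx : f x = m) :
    x ∉ interior K := by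
  intro hxi
  have hc : Continuous fun t : ℝ => x + t • w := by fun_prop
  have h1 : ∀ᶠ t : ℝ in 𝓝 0, x + t • w ∈ interior K := by
    have : Tendsto (fun t : ℝ => x + t • w) (𝓝 0) (𝓝 (x + (0 : ℝ) • w)) := hc.tendsto 0
    rw [zero_smul, add_zero] at this
    exact this (isOpen_interior.mem_nhds hxi)
  have h2 : ∀ᶠ t : ℝ in 𝓝[>] 0, x + t • w ∈ interior K := h1.filter_mono nhdsWithin_le_nhds
  obtain ⟨t, ht1, ht2⟩ := (h2.and self_mem_nhdsWithin).exists
  have h3 := hK _ (interior_subset ht1)
  rw [hf, hx] at h3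
  have : 0 < t * k := mul_pos ht2 hk
  linarith

/-- Affine coordinates in the plane with respect to a point and two independent vectors. -/
structure Frame where
  B : Pl
  u : Pl
  v : Pl
  S : Pl → ℝ
  T : Pl → ℝ
  contS : Continuous S
  contT : Continuous T
  eq : ∀ x, x = B + S x • u + T x • v
  coS : ∀ s t : ℝ, S (B + s • u + t • v) = s
  coT : ∀ s t : ℝ, T (B + s • u + t • v) = t

theorem exists_frame (B u v : Pl) (hli : LinearIndependent ℝ ![u, v]) :
    ∃ F : Frame, F.B = B ∧ F.u = u ∧ F.v = v := by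
  have hcard : Fintype.card (Fin 2) = Module.finrank ℝ Pl := by simp
  let b : Module.Basis (Fin 2) ℝ Pl := basisOfLinearIndependentOfCardEqFinrank hli hcard
  have hb0 : b 0 = u := by simp [b]
  have hb1 : b 1 = v := by simp [b]
  have hrep : ∀ y : Pl, y = b.repr y 0 • u + b.repr y 1 • v := by
    intro y
    conv_lhs => rw [← b.sum_repr y]
    rw [Fin.sum_univ_two, hb0, hb1]
  have hc : ∀ i, Continuous fun y : Pl => b.repr y i := by
    intro i
    exact (LinearMap.continuous_of_finiteDimensional (b.coord i))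
  have hco : ∀ s t : ℝ, b.repr (s • u + t • v) 0 = s ∧ b.repr (s • u + t • v) 1 = t := by
    intro s t
    rw [← hb0, ← hb1]
    simp
  refine ⟨⟨B, u, v, fun x => b.repr (x - B) 0, fun x => b.repr (x - B) 1, ?_, ?_, ?_, ?_, ?_⟩,
    rfl, rfl, rfl⟩
  · exact (hc 0).comp (continuous_id.sub continuous_const)
  · exact (hc 1).comp (continuous_id.sub continuous_const)
  · intro x
    have := hrep (x - B)
    rw [add_assoc, ← this]
    abel
  · intro s t
    have : B + s • u + t • v - B = s • u + t • v := by abel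
    simp only [this]
    exact (hco s t).1
  · intro s t
    have : B + s • u + t • v - B = s • u + t • v := by abel
    simp only [this]
    exact (hco s t).2

namespace Frame

variable (F : Frame)

theorem S_comb (x y : Pl) (α β : ℝ) (h : α + β = 1) :
    F.S (α • x + β • y) = α * F.S x + β * F.S y := by
  have hx := F.eq x
  have hy := F.eq y
  have : α • x + β • y = F.B + (α * F.S x + β * F.S y) • F.u + (α * F.T x + β * F.T y) • F.v := by
    conv_lhs => rw [hx, hy]
    have hB : F.B = (α + β) • F.B := by rw [h, one_smul]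
    conv_rhs => rw [hB]
    module
  rw [this, F.coS]

theorem T_comb (x y : Pl) (α β : ℝ) (h : α + β = 1) :
    F.T (α • x + β • y) = α * F.T x + β * F.T y := by
  have hx := F.eq x
  have hy := F.eq y
  have : α • x + β • y = F.B + (α * F.S x + β * F.S y) • F.u + (α * F.T x + β * F.T y) • F.v := by
    conv_lhs => rw [hx, hy]
    have hB : F.B = (α + β) • F.B := by rw [h, one_smul]
    conv_rhs => rw [hB]
    module
  rw [this, F.coT]

theorem S_B : F.S F.B = 0 := by
  have := F.coS 0 0
  simpa using this

theorem T_B : F.T F.B = 0 := by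
  have := F.coT 0 0
  simpa using this

theorem S_u (s : ℝ) : F.S (F.B + s • F.u) = s := by
  have := F.coS s 0
  simpa using this

theorem T_u (s : ℝ) : F.T (F.B + s • F.u) = 0 := by
  have := F.coT s 0
  simpa using this

theorem S_v (t : ℝ) : F.S (F.B + t • F.v) = 0 := by
  have := F.coS 0 t
  simpa using this

theorem T_v (t : ℝ) : F.T (F.B + t • F.v) = t := by
  have := F.coT 0 t
  simpa using this

theorem S_add (x : Pl) (s t : ℝ) : F.S (x + (s • F.u + t • F.v)) = F.S x + s := by
  have : x + (s • F.u + t • F.v) = F.B + (F.S x + s) • F.u + (F.T x + t) • F.v := by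
    conv_lhs => rw [F.eq x]
    module
  rw [this, F.coS]

theorem T_add (x : Pl) (s t : ℝ) : F.T (x + (s • F.u + t • F.v)) = F.T x + t := by
  have : x + (s • F.u + t • F.v) = F.B + (F.S x + s) • F.u + (F.T x + t) • F.v := by
    conv_lhs => rw [F.eq x]
    module
  rw [this, F.coT]

/-- the triangle in coordinates -/
theorem mem_tri {a c : ℝ} (ha : 0 < a) (hc : 0 < c) (x : Pl) :
    x ∈ tri (F.B + c • F.u) F.B (F.B + a • F.v) ↔
      0 ≤ F.S x ∧ 0 ≤ F.T x ∧ a * F.S x + c * F.T x ≤ a * c := by
  constructor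
  · intro hx
    have hconv : Convex ℝ {x : Pl | 0 ≤ F.S x ∧ 0 ≤ F.T x ∧ a * F.S x + c * F.T x ≤ a * c} := by
      rintro x ⟨h1, h2, h3⟩ y ⟨h4, h5, h6⟩ α β hα hβ hαβ
      refine ⟨?_, ?_, ?_⟩
      · rw [F.S_comb x y α β hαβ]
        positivity
      · rw [F.T_comb x y α β hαβ]
        positivity
      · rw [F.S_comb x y α β hαβ, F.T_comb x y α β hαβ]
        have e1 : α * (a * F.S x + c * F.T x) ≤ α * (a * c) := mul_le_mul_of_nonneg_left h3 hα
        have e2 : β * (a * F.S y + c * F.T y) ≤ β * (a * c) := mul_le_mul_of_nonneg_left h6 hβ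
        have e3 : α * (a * c) + β * (a * c) = a * c := by rw [← add_mul, hαβ, one_mul]
        linarith
    refine convexHull_min ?_ hconv hx
    rintro y (rfl | rfl | rfl)
    · refine ⟨?_, ?_, ?_⟩
      · rw [F.S_u]; exact hc.le
      · rw [F.T_u]
      · rw [F.S_u, F.T_u]; simp
    · refine ⟨?_, ?_, ?_⟩
      · rw [F.S_B]
      · rw [F.T_B]
      · rw [F.S_B, F.T_B]; simp only [mul_zero, add_zero]; positivity
    · refine ⟨?_, ?_, ?_⟩
      · rw [F.S_v]
      · rw [F.T_v]; exact ha.le
      · rw [F.S_v, F.T_v]; rw [mul_zero, zero_add, mul_comm]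
  · rintro ⟨h1, h2, h3⟩
    have hx : x = ∑ i : Fin 3, (![F.S x / c, 1 - F.S x / c - F.T x / a, F.T x / a] : Fin 3 → ℝ) i •
        (![F.B + c • F.u, F.B, F.B + a • F.v] : Fin 3 → Pl) i := by
      rw [Fin.sum_univ_three]
      simp only [Matrix.cons_val_zero, Matrix.cons_val_one, Matrix.cons_val]
      conv_lhs => rw [F.eq x]
      have e1 : F.S x = F.S x / c * c := by field_simp
      have e2 : F.T x = F.T x / a * a := by field_simp
      have : (F.S x / c) • (F.B + c • F.u) + (1 - F.S x / c - F.T x / a) • F.B +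
          (F.T x / a) • (F.B + a • F.v) = F.B + (F.S x / c * c) • F.u + (F.T x / a * a) • F.v := by
        module
      rw [this, ← e1, ← e2]
    rw [hx]
    refine (convex_convexHull ℝ _).sum_mem ?_ ?_ ?_
    · intro i _
      fin_cases i
      · simp only [Fin.zero_eta, Matrix.cons_val_zero]; positivity
      · simp only [Fin.mk_one, Matrix.cons_val_one, Matrix.cons_val_zero]
        have : (a * F.S x + c * F.T x) / (a * c) ≤ 1 := by
          rw [div_le_one (by positivity)]; exact h3
        have e3 : (a * F.S x + c * F.T x) / (a * c) = F.S x / c + F.T x / a := by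
          field_simp
        linarith
      · simp only [Fin.reduceFinMk, Matrix.cons_val]; positivity
    · rw [Fin.sum_univ_three]
      simp only [Matrix.cons_val_zero, Matrix.cons_val_one, Matrix.cons_val]
      ring
    · intro i _
      apply subset_convexHull
      fin_cases i <;> simp

end Frame

end Pool.Agent.H791Tri
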