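import Pool.Agent.H791_Tri.Bound

/-!
Overlapping congruent triangles: the lower bound for `M(T)` and the comparison with `csc (θ / 2)`.
-/

set_option autoImplicit false

open MeasureTheory Set Filter Topology EuclideanGeometry
open scoped ENNReal Real

namespace Pool.Agent.H791Tri

theorem linInd_of_affInd (A B C : Pl) (h : AffineIndependent ℝ ![A, B, C]) (s t : ℝ) (hs : s ≠ 0)
    (ht : t ≠ 0) : LinearIndependent ℝ ![s • (A - B), t • (C - B)] := by
  rw [affineIndependent_iff_not_collinear_set] at h
  rw [LinearIndependent.pair_iff]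
  intro x y hxy
  rw [smul_smul, smul_smul] at hxy
  by_contra hne
  apply h
  rw [collinear_iff_of_mem (p₀ := B) (by simp)]
  by_cases hx : x = 0
  · have hy : y ≠ 0 := fun hy => hne ⟨hx, hy⟩
    rw [hx, zero_mul, zero_smul, zero_add, smul_eq_zero] at hxy
    have hCB : C - B = 0 := by
      rcases hxy with h1 | h1
      · exact absurd h1 (mul_ne_zero hy ht)
      · exact h1
    refine ⟨A - B, ?_⟩
    rintro p (rfl | rfl | rfl)
    · exact ⟨1, by simp⟩
    · exact ⟨0, by simp⟩
    · exact ⟨0, by simp [sub_eq_zero.mp hCB]⟩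
  · have hAB : A - B = (-(y * t) / (x * s)) • (C - B) := by
      have hxs : x * s ≠ 0 := mul_ne_zero hx hs
      have h1 : (x * s) • (A - B) = (-(y * t)) • (C - B) := by
        rw [neg_smul]; exact eq_neg_of_add_eq_zero_left hxy
      have h2 : A - B = (x * s)⁻¹ • ((x * s) • (A - B)) := by
        rw [smul_smul, inv_mul_cancel₀ hxs, one_smul]
      rw [h2, h1, smul_smul]
      congr 1
      field_simp
    refine ⟨C - B, ?_⟩
    rintro p (rfl | rfl | rfl)
    · exact ⟨-(y * t) / (x * s), by rw [vadd_eq_add, ← hAB]; abel⟩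
    · exact ⟨0, by simp⟩
    · exact ⟨1, by simp⟩

theorem bound_of_lt (A B C : Pl) (h : AffineIndependent ℝ ![A, B, C]) (hlt : dist B C < dist B A) :
    ENNReal.ofReal (1 + 2 * (dist B A + dist B C) / dist A C) ≤ M (tri A B C) := by
  have hinj := h.injective
  have hBC : B ≠ C := fun e => by
    have := @hinj 1 2 (by simpa using e)
    simp at this
  have hBA : B ≠ A := fun e => by
    have := @hinj 1 0 (by simpa using e)
    simp at this
  have hAC : A ≠ C := fun e => by
    have := @hinj 0 2 (by simpa using e)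
    simp at this
  set a := dist B C with ha
  set c := dist B A with hc
  set b := dist A C with hb
  have ha0 : 0 < a := dist_pos.mpr hBC
  have hc0 : 0 < c := dist_pos.mpr hBA
  have hb0 : 0 < b := dist_pos.mpr hAC
  obtain ⟨F, hFB, hFu, hFv⟩ := exists_frame B (c⁻¹ • (A - B)) (a⁻¹ • (C - B))
    (linInd_of_affInd A B C h _ _ (inv_ne_zero hc0.ne') (inv_ne_zero ha0.ne'))
  have hnu : ‖F.u‖ = 1 := by
    rw [hFu, norm_smul, norm_inv, Real.norm_of_nonneg hc0.le, ← dist_eq_norm, dist_comm A B, ← hc,
      inv_mul_cancel₀ hc0.ne']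
  have hnv : ‖F.v‖ = 1 := by
    rw [hFv, norm_smul, norm_inv, Real.norm_of_nonneg ha0.le, ← dist_eq_norm, dist_comm C B, ← ha,
      inv_mul_cancel₀ ha0.ne']
  have hcu : c • F.u = A - B := by rw [hFu, smul_smul, mul_inv_cancel₀ hc0.ne', one_smul]
  have hav : a • F.v = C - B := by rw [hFv, smul_smul, mul_inv_cancel₀ ha0.ne', one_smul]
  have htri : tri (F.B + c • F.u) F.B (F.B + a • F.v) = tri A B C := by
    rw [hcu, hav, hFB]
    congr 1 <;> abel
  have hnorm : ‖c • F.u - a • F.v‖ = b := by
    rw [hcu, hav, hb, dist_eq_norm]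
    congr 1
    abel
  have key := fun (δ : ℝ) (hδ : 0 < δ) (h1 : (a + c) * δ < a * (c - a))
    (h2 : 2 * (a + c) * δ < a * c) => F.core_bound hnu hnv ha0 hlt hδ h1 h2
  rw [htri, hnorm] at key
  set Φ : ℝ → ℝ := fun δ => (a + (a - (a + c) * δ / c) + (a / (a + c) - δ / (c - a)) * b) /
    ((a / (a + c) + δ / (c - a)) * b) with hΦ
  have hca : 0 < c - a := sub_pos.mpr hlt
  have hΦ0 : Φ 0 = 1 + 2 * (c + a) / b := by
    simp only [hΦ]
    field_simp
    ring
  have hcont : ContinuousAt Φ 0 := by
    simp only [hΦ]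
    apply ContinuousAt.div
    · fun_prop
    · fun_prop
    · simp only [zero_div, add_zero]
      positivity
  have hlim : Tendsto (fun δ => ENNReal.ofReal (Φ δ)) (𝓝[>] 0) (𝓝 (ENNReal.ofReal (Φ 0))) :=
    (ENNReal.continuous_ofReal.continuousAt.comp hcont).tendsto.mono_left nhdsWithin_le_nhds
  have hev : ∀ᶠ δ in 𝓝[>] (0 : ℝ), ENNReal.ofReal (Φ δ) ≤ M (tri A B C) := by
    have c1 : ∀ᶠ δ in 𝓝 (0 : ℝ), (a + c) * δ < a * (c - a) := by
      have : ContinuousAt (fun δ : ℝ => (a + c) * δ) 0 := by fun_prop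
      have h3 := this.tendsto
      rw [mul_zero] at h3
      exact h3.eventually_lt_const (by positivity)
    have c2 : ∀ᶠ δ in 𝓝 (0 : ℝ), 2 * (a + c) * δ < a * c := by
      have : ContinuousAt (fun δ : ℝ => 2 * (a + c) * δ) 0 := by fun_prop
      have h3 := this.tendsto
      rw [mul_zero] at h3
      exact h3.eventually_lt_const (by positivity)
    filter_upwards [self_mem_nhdsWithin, nhdsWithin_le_nhds c1, nhdsWithin_le_nhds c2] with δ d0 d1 d2
    exact key δ d0 d1 d2
  have := le_of_tendsto hlim hev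
  rw [hΦ0] at this
  exact this

/-- The lower bound for every triangle and every vertex with two different adjacent sides. -/
theorem bound (A B C : Pl) (h : AffineIndependent ℝ ![A, B, C]) (hne : dist B A ≠ dist B C) :
    ENNReal.ofReal (1 + 2 * (dist B A + dist B C) / dist A C) ≤ M (tri A B C) := by
  rcases lt_or_gt_of_ne hne with h1 | h1
  · have h' : AffineIndependent ℝ ![C, B, A] := by
      rw [affineIndependent_iff_not_collinear_set] at h ⊢
      have : ({C, B, A} : Set Pl) = {A, B, C} := by
        ext x; simp only [mem_insert_iff, mem_singleton_iff]; tauto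
      rwa [this]
    have h2 := bound_of_lt C B A h' h1
    have h3 : tri C B A = tri A B C := by
      unfold tri
      congr 1
      ext x; simp only [mem_insert_iff, mem_singleton_iff]; tauto
    rw [h3, add_comm (dist B C), dist_comm C A] at h2
    exact h2
  · exact bound_of_lt A B C h h1

/-- Comparison with `csc (θ / 2)`. -/
theorem gt_csc (A B C : Pl) (h : AffineIndependent ℝ ![A, B, C]) (hne : dist B A ≠ dist B C)
    (hA : ∠ C A B ≤ 2 * π / 3) (hC : ∠ B C A ≤ 2 * π / 3) :
    ENNReal.ofReal (1 / Real.sin (∠ A B C / 2)) < M (tri A B C) := by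
  refine lt_of_lt_of_le ?_ (bound A B C h hne)
  have hinj := h.injective
  have hBC : B ≠ C := fun e => by
    have := @hinj 1 2 (by simpa using e)
    simp at this
  have hBA : B ≠ A := fun e => by
    have := @hinj 1 0 (by simpa using e)
    simp at this
  have hAC : A ≠ C := fun e => by
    have := @hinj 0 2 (by simpa using e)
    simp at this
  have hnc : ¬ Collinear ℝ {A, B, C} := by
    rwa [← affineIndependent_iff_not_collinear_set]
  have hsum : ∠ A B C + ∠ B C A + ∠ C A B = π :=
    EuclideanGeometry.angle_add_angle_add_angle_eq_pi C hBA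
  have hA0 : 0 < ∠ C A B := by
    apply angle_pos_of_not_collinear
    have : ({C, A, B} : Set Pl) = {A, B, C} := by
      ext x; simp only [mem_insert_iff, mem_singleton_iff]; tauto
    rwa [this]
  have hC0 : 0 < ∠ B C A := by
    apply angle_pos_of_not_collinear
    have : ({B, C, A} : Set Pl) = {A, B, C} := by
      ext x; simp only [mem_insert_iff, mem_singleton_iff]; tauto
    rwa [this]
  have hB0 : 0 < ∠ A B C := angle_pos_of_not_collinear hnc
  have s1 : Real.sin (∠ A B C) * dist B C = Real.sin (∠ C A B) * dist C A :=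
    EuclideanGeometry.law_sin A B C
  have s2 : Real.sin (∠ C B A) * dist B A = Real.sin (∠ A C B) * dist A C :=
    EuclideanGeometry.law_sin C B A
  rw [angle_comm C B A, angle_comm A C B] at s2
  rw [dist_comm C A] at s1
  set α := ∠ C A B with hα
  set β := ∠ A B C with hβ
  set γ := ∠ B C A with hγ
  have hb0 : 0 < dist A C := dist_pos.mpr hAC
  have hσ : 0 < Real.sin (β / 2) := Real.sin_pos_of_pos_of_lt_pi (by linarith) (by linarith)
  have hκ : 0 < Real.cos (β / 2) := Real.cos_pos_of_mem_Ioo ⟨by linarith, by linarith⟩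
  have hη : 1 / 2 < Real.cos ((α - γ) / 2) := by
    rw [← Real.cos_pi_div_three, ← Real.cos_abs ((α - γ) / 2)]
    apply Real.cos_lt_cos_of_nonneg_of_le_pi_div_two (abs_nonneg _) (by linarith [Real.pi_pos])
    rw [abs_lt]
    constructor <;> linarith
  have hsum2 : Real.sin α + Real.sin γ = 2 * Real.cos (β / 2) * Real.cos ((α - γ) / 2) := by
    have e1 : α = (π / 2 - β / 2) + (α - γ) / 2 := by linarith
    have e2 : γ = (π / 2 - β / 2) - (α - γ) / 2 := by linarith
    have e3 : Real.sin α = Real.sin (π / 2 - β / 2) * Real.cos ((α - γ) / 2) +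
        Real.cos (π / 2 - β / 2) * Real.sin ((α - γ) / 2) := by
      conv_lhs => rw [e1]
      rw [Real.sin_add]
    have e4 : Real.sin γ = Real.sin (π / 2 - β / 2) * Real.cos ((α - γ) / 2) -
        Real.cos (π / 2 - β / 2) * Real.sin ((α - γ) / 2) := by
      conv_lhs => rw [e2]
      rw [Real.sin_sub]
    rw [e3, e4, Real.sin_pi_div_two_sub]
    ring
  have hdouble : Real.sin β = 2 * Real.sin (β / 2) * Real.cos (β / 2) := by
    have : β = 2 * (β / 2) := by ring
    conv_lhs => rw [this]
    rw [Real.sin_two_mul]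
  have hmol : (dist B A + dist B C) * Real.sin (β / 2) = dist A C * Real.cos ((α - γ) / 2) := by
    have h5 : (2 * Real.cos (β / 2)) * ((dist B A + dist B C) * Real.sin (β / 2)) =
        (2 * Real.cos (β / 2)) * (dist A C * Real.cos ((α - γ) / 2)) := by
      calc _ = Real.sin β * dist B C + Real.sin β * dist B A := by rw [hdouble]; ring
        _ = (Real.sin α + Real.sin γ) * dist A C := by rw [s1, s2]; ring
        _ = _ := by rw [hsum2]; ring
    exact mul_left_cancel₀ (by positivity) h5
  apply (ENNReal.ofReal_lt_ofReal_iff (by positivity)).mpr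
  have h6 : 1 / Real.sin (β / 2) < 2 * (dist B A + dist B C) / dist A C := by
    rw [div_lt_div_iff₀ hσ hb0]
    nlinarith
  linarith

/-- the smallest angle of a triangle -/
noncomputable def smallestAngle (A B C : Pl) : ℝ := min (∠ A B C) (min (∠ B C A) (∠ C A B))

/-- the vertices of a 3-4-5 triangle -/
noncomputable def exA : Pl := !₂[4, 3]
noncomputable def exB : Pl := !₂[0, 0]
noncomputable def exC : Pl := !₂[4, 0]

theorem ex_BA : dist exB exA = 5 := by
  rw [EuclideanSpace.dist_eq]
  simp [exB, exA, Fin.sum_univ_two, Real.dist_eq]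
  rw [show (4 : ℝ) ^ 2 + 3 ^ 2 = 5 ^ 2 by norm_num]
  exact Real.sqrt_sq (by norm_num)

theorem ex_BC : dist exB exC = 4 := by
  rw [EuclideanSpace.dist_eq]
  simp [exB, exC, Fin.sum_univ_two, Real.dist_eq]

theorem ex_AC : dist exA exC = 3 := by
  rw [EuclideanSpace.dist_eq]
  simp [exA, exC, Fin.sum_univ_two, Real.dist_eq]

theorem cos_of_dist (A B C : Pl) (c a b : ℝ) (h1 : dist B A = c) (h2 : dist B C = a)
    (h3 : dist A C = b) (hc : 0 < c) (ha : 0 < a) :
    Real.cos (∠ A B C) = (c ^ 2 + a ^ 2 - b ^ 2) / (2 * c * a) := by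
  have := EuclideanGeometry.law_cos A B C
  rw [h3, dist_comm A B, dist_comm C B, h1, h2] at this
  field_simp
  nlinarith

theorem angle_eq_arccos (A B C : Pl) : ∠ A B C = Real.arccos (Real.cos (∠ A B C)) :=
  (Real.arccos_cos (angle_nonneg _ _ _) (angle_le_pi _ _ _)).symm

theorem ex_angles : Real.cos (∠ exA exB exC) = 4 / 5 ∧ Real.cos (∠ exB exC exA) = 0 ∧
    Real.cos (∠ exC exA exB) = 3 / 5 := by
  refine ⟨?_, ?_, ?_⟩
  · rw [cos_of_dist exA exB exC 5 4 3 ex_BA ex_BC ex_AC (by norm_num) (by norm_num)]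
    norm_num
  · rw [cos_of_dist exB exC exA 4 3 5 (by rw [dist_comm]; exact ex_BC)
      (by rw [dist_comm]; exact ex_AC) ex_BA (by norm_num) (by norm_num)]
    norm_num
  · rw [cos_of_dist exC exA exB 3 5 4 ex_AC (by rw [dist_comm]; exact ex_BA)
      (by rw [dist_comm]; exact ex_BC) (by norm_num) (by norm_num)]
    norm_num

theorem ex_affInd : AffineIndependent ℝ ![exA, exB, exC] := by
  rw [affineIndependent_iff_not_collinear_set]
  intro hcol
  obtain ⟨h1, -, -⟩ := ex_angles
  have h2 := EuclideanGeometry.collinear_iff_eq_or_eq_or_angle_eq_zero_or_angle_eq_pi.mp hcol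
  rcases h2 with h | h | h | h
  · have := ex_BA
    rw [h, dist_self] at this
    norm_num at this
  · have := ex_BC
    rw [h, dist_self] at this
    norm_num at this
  · rw [h] at h1
    norm_num at h1
  · rw [h] at h1
    norm_num at h1

theorem ex_smallest : smallestAngle exA exB exC = ∠ exA exB exC := by
  obtain ⟨h1, h2, h3⟩ := ex_angles
  unfold smallestAngle
  apply min_eq_left
  apply le_min
  · rw [angle_eq_arccos exA exB exC, angle_eq_arccos exB exC exA, h1, h2]
    exact Real.arccos_le_arccos (by norm_num)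
  · rw [angle_eq_arccos exA exB exC, angle_eq_arccos exC exA exB, h1, h3]
    exact Real.arccos_le_arccos (by norm_num)

theorem ex_gt : ENNReal.ofReal (1 / Real.sin (smallestAngle exA exB exC / 2)) <
    M (tri exA exB exC) := by
  obtain ⟨h1, h2, h3⟩ := ex_angles
  rw [ex_smallest]
  apply gt_csc exA exB exC ex_affInd
  · rw [ex_BA, ex_BC]; norm_num
  · rw [angle_eq_arccos exC exA exB, h3]
    have : Real.arccos (3 / 5) ≤ π / 2 := Real.arccos_le_pi_div_two.mpr (by norm_num)
    linarith [Real.pi_pos]
  · rw [angle_eq_arccos exB exC exA, h2]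
    have : Real.arccos 0 = π / 2 := Real.arccos_zero
    rw [this]
    linarith [Real.pi_pos]

end Pool.Agent.H791Tri
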